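import Pool.Agent.Lib.MP_6756f0_al.UExample

namespace Pool.Agent.Results.MP_6756f0_al.GolodFamily

open MvPolynomial Pool.Agent.Lib.MP_6756f0_al Pool.Agent.Lib.MP_6756f0_al.PDefs

/-- In `n ≥ 4` variables with irrelevant ideal `m`, the homogeneous ideals
`I₁ = m (xᵢ^(s+2)) + m^(4s+4)` and `I₂ = m^s` are Golod, and the product of `I₁` with any ideal
between `I₂` and `m` is not. -/
theorem result (k : Type) [Field k] (n s : ℕ) (hn : 4 ≤ n) (hs : 2 ≤ s) :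
    ∃ I₁ I₂ : Ideal (MvPolynomial (Fin n) k),
      I₁ = irr k n * powers k n (s + 2) ⊔ irr k n ^ (4 * s + 4) ∧ I₂ = irr k n ^ s ∧
      IsAdmissible I₁ ∧ IsAdmissible I₂ ∧ IsGolod I₁ ∧ IsGolod I₂ ∧ I₁ ≤ I₂ ∧
      ∀ I, I₂ ≤ I → I ≤ irr k n → ¬ IsGolod (I₁ * I) :=
  ⟨_, _, rfl, rfl, adm_JJ s, adm_pow hs, golod_JJ ⟨0, by omega⟩ s, golod_pow ⟨0, by omega⟩ hs,
    (JJ_le s).trans (Ideal.pow_le_pow_right (by omega)),
    not_golod_mul (a := ⟨0, by omega⟩) (b := ⟨1, by omega⟩) (c := ⟨2, by omega⟩)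
      (d := ⟨3, by omega⟩) (by simp) (by simp) (by simp) s⟩

end Pool.Agent.Results.MP_6756f0_al.GolodFamily
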